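import Pool.Agent.Q150.GridB

/-!
# Extremal point-line configurations without a lattice-like part
-/

namespace Pool.Agent.Results.MP_fad2aa_co.NotLatticeLike

open Q150.Grid

/-- The structure question has a negative answer. Moreover, for every `c > 0` there are arbitrarily
large `k` and sets of `16 k ^ 6` points and `k ^ 6` lines with at least `k ^ 8` incidences, such that
no subset of at least a proportion `c` of the points, and no set of dual points of at least a
proportion `c` of the lines, is mapped by a projective transformation into a lattice section of any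
size. -/
theorem result :
    ¬ Conjecture ∧
    ∀ c : ℝ, 0 < c → ∀ N : ℕ, ∃ k : ℕ, N ≤ k ∧ 1 ≤ k ∧
      ∃ (P : Finset (ℝ × ℝ)) (L : Finset (Set (ℝ × ℝ))), P.card = 16 * k ^ 6 ∧ L.card = k ^ 6 ∧
        (∀ l ∈ L, IsLine l) ∧ k ^ 8 ≤ inc P L ∧
        (∀ P' ⊆ P, c * (P.card : ℝ) ≤ P'.card → ∀ s, ¬ InSection P' s) ∧
        ∀ D : Finset (ℝ × ℝ), (∀ d ∈ D, dualLine d ∈ L) → c * (L.card : ℝ) ≤ D.card →
          ∀ s, ¬ InSection D s := by
  refine ⟨main, fun c hc N => ?_⟩
  obtain ⟨k, hN, hk, h1, h2⟩ := strong c hc N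
  exact ⟨k, hN, hk, pts k, lns k, card_pts k, card_lns k, fun l hl => isLine_of_mem hl, inc_ge k,
    h1, h2⟩

end Pool.Agent.Results.MP_fad2aa_co.NotLatticeLike
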